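import Mathlib
import Pool.Agent.Helper4.PC.Main

/-!
Lists of size `Δ + 1` suffice for graphs of large maximum degree `Δ` without vertices of degree between
`2` and `16`.
-/

namespace Pool.Agent.Results.MP_cab741_co.MaxDegreePlusOne

/-- `c` is a proper conflict-free colouring of `G`: adjacent vertices have different colours, and for
every vertex `v` with a neighbour some colour is used by exactly one neighbour of `v`. -/
def IsPCF {V : Type} (G : SimpleGraph V) (c : V → ℕ) : Prop :=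
  (∀ u v, G.Adj u v → c u ≠ c v) ∧
    ∀ v, (∃ u, G.Adj v u) → ∃ a, ∃! u, G.Adj v u ∧ c u = a

/-- `G` is proper conflict-free `f`-choosable: for all lists with `|L v| ≥ f v` there is a proper
conflict-free colouring from the lists. -/
def PCFChoosable {V : Type} (G : SimpleGraph V) (f : V → ℕ) : Prop :=
  ∀ L : V → Finset ℕ, (∀ v, f v ≤ (L v).card) → ∃ c : V → ℕ, (∀ v, c v ∈ L v) ∧ IsPCF G c

/-- There is `Δ₀` such that for `Δ ≥ Δ₀` every finite graph of maximum degree at most `Δ` without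
vertices of degree `2, …, 16` is proper conflict-free `(Δ + 1)`-choosable. -/
theorem result : ∃ Δ₀ : ℕ, ∀ (V : Type) [Finite V] (G : SimpleGraph V) (Δ : ℕ), Δ₀ ≤ Δ →
    (∀ v, (G.neighborSet v).ncard ≤ Δ) →
    (∀ v, (G.neighborSet v).ncard ≤ 1 ∨ 17 ≤ (G.neighborSet v).ncard) →
    PCFChoosable G (fun _ => Δ + 1) := by
  obtain ⟨Δ0, h⟩ := Pool.Agent.Helper4.PC.mainB
  refine ⟨Δ0, ?_⟩
  intro V _ G Δ hΔ hmax hmin L hL
  classical
  haveI : Fintype V := Fintype.ofFinite V
  set N : V → Finset V := fun v => Finset.univ.filter fun u => G.Adj v u with hN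
  have hmem : ∀ v u, u ∈ N v ↔ G.Adj v u := fun v u => by simp [hN]
  have hcard : ∀ v, (N v).card = (G.neighborSet v).ncard := by
    intro v
    rw [← Set.ncard_coe_finset]
    congr 1
    ext u
    rw [Finset.mem_coe, hmem, SimpleGraph.mem_neighborSet]
  obtain ⟨c, h1, h2, h3⟩ := h V N L Δ
    ⟨fun u v huv => (hmem _ _).mpr ((hmem _ _).mp huv).symm,
      fun v hv => G.loopless.irrefl v ((hmem _ _).mp hv)⟩
    hΔ (fun v => by rw [hcard]; exact hmax v) (fun v => by rw [hcard]; exact hmin v) hL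
  refine ⟨c, h1, fun u v huv => h2 v u ((hmem _ _).mpr huv.symm), fun v hv => ?_⟩
  obtain ⟨w, hw⟩ := hv
  obtain ⟨u, hu, hu'⟩ := h3 v ⟨w, (hmem _ _).mpr hw⟩
  exact ⟨c u, u, ⟨(hmem _ _).mp hu, rfl⟩, fun w hw => hu' w ((hmem _ _).mpr hw.1) hw.2⟩

end Pool.Agent.Results.MP_cab741_co.MaxDegreePlusOne
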